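import Pool.Agent.W688.HT.Bb
import Pool.Agent.Y472.B.Defs

/-!
# Closed 3-braids without axis (project CB3 of helper472): the integrals `bb` and `rh`
-/

set_option autoImplicit false

namespace Pool.Agent.Y105.CB

open Filter Finset Topology MeasureTheory GapVol EvenVol EvenVol.LobIneq
open Pool.Agent.W711.HT Pool.Agent.W688.HT Pool.Agent.Y472
open scoped Real

lemma rh_bb (δ x : ℝ) : rh δ x = bb δ (π - x) := by
  unfold rh bb
  congr 1
  funext s
  rw [Real.cos_pi_sub, show -Real.cos x + Real.cos (2 * π * s) =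
    -(Real.cos x - Real.cos (2 * π * s)) by ring, abs_neg]

lemma rh_FF (δ x : ℝ) : rh δ x = FF (π - π * δ) (x / 2) / π := by
  rw [rh_bb, bb_FF, show (π - x) / 2 + π / 2 = π - x / 2 by ring, FF_symm]

lemma FF_even (a b : ℝ) : FF a (-b) = FF a b := by
  unfold FF
  rw [← sub_eq_add_neg, sub_neg_eq_add]
  ring

lemma rh_abs (δ x : ℝ) : rh δ x = FF (π - π * δ) (|x| / 2) / π := by
  rw [rh_FF]
  rcases abs_choice x with h | h
  · rw [h]
  · rw [h, neg_div, FF_even]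

lemma FF_refl (a b : ℝ) : FF (π - a) b = -FF a b := by
  unfold FF
  have h1 : lob (π - a + b) = -lob (a - b) := by
    rw [show π - a + b = -(a - b) + π by ring, lob_per, lob_neg]
  have h2 : lob (π - a - b) = -lob (a + b) := by
    rw [show π - a - b = -(a + b) + π by ring, lob_per, lob_neg]
  have h3 : lob (π - a) = -lob a := by
    rw [show π - a = -a + π by ring, lob_per, lob_neg]
  rw [h1, h2, h3]
  ring

lemma FF_mono {a b c : ℝ} (ha0 : π / 2 ≤ a) (ha1 : a ≤ π) (hb0 : 0 ≤ b) (hbc : b ≤ c)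
    (hc : c ≤ π / 2) : FF a b ≤ FF a c := by
  have h := mono2 ha0 ha1 hb0 hbc hc
  rw [← dphi] at h
  unfold FF
  linarith

lemma FF_zero (a : ℝ) : FF a 0 = 0 := by
  unfold FF
  rw [add_zero, sub_zero]
  ring

lemma FF_nonneg {a b : ℝ} (ha0 : π / 2 ≤ a) (ha1 : a ≤ π) (hb0 : 0 ≤ b) (hb1 : b ≤ π / 2) :
    0 ≤ FF a b := by
  rw [← FF_zero a]
  exact FF_mono ha0 ha1 le_rfl hb0 hb1

/-- the quadratic lower bound near `a = 3 π / 4` -/
lemma FF_near {a b : ℝ} (ha : |a - 3 * π / 4| ≤ 1 / 200) (hb0 : 0 ≤ b) (hb : b ≤ 1 / 200) :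
    31 / 32 * b ^ 2 ≤ FF a b := by
  have h1 := dphi a 0 b
  have h3 : 31 / 32 * b ^ 2 ≤ ∫ s in (0:ℝ)..b, (g (a + s) - g (a - s)) := by
    have e : ∫ s in (0:ℝ)..b, 31 / 16 * s = 31 / 32 * b ^ 2 := by
      rw [intervalIntegral.integral_const_mul, integral_id]
      ring
    rw [← e]
    refine intervalIntegral.integral_mono_on hb0
      (Continuous.intervalIntegrable (by fun_prop) _ _)
      ((g_int_add a _ _).sub (g_int_sub a _ _)) ?_
    intro s hs
    have h4 := key_pt (u := 3 * π / 4 - a) (σ := s) (by rwa [abs_sub_comm] at ha) hs.1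
      (hs.2.trans hb)
    have e1 : g (π / 4 + (3 * π / 4 - a) - s) = g (a + s) := by
      rw [show π / 4 + (3 * π / 4 - a) - s = π - (a + s) by ring, g_pi_sub]
    have e2 : g (π / 4 + (3 * π / 4 - a) + s) = g (a - s) := by
      rw [show π / 4 + (3 * π / 4 - a) + s = π - (a - s) by ring, g_pi_sub]
    rw [e1, e2] at h4
    exact h4
  rw [← h1, add_zero, sub_zero] at h3
  unfold FF
  linarith

lemma FF_near' {a x ρ : ℝ} (ha : |a - 3 * π / 4| ≤ 1 / 200) (hx1 : |x| ≤ π) (hρ0 : 0 ≤ ρ)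
    (hρ : ρ ≤ 1 / 100) : 31 / 128 * min |x| ρ ^ 2 ≤ FF a (|x| / 2) := by
  have hπ := Real.pi_gt_three
  have ha' := abs_le.1 ha
  have hx0 := abs_nonneg x
  have hm0 : 0 ≤ min |x| ρ := le_min hx0 hρ0
  have hm1 : min |x| ρ ≤ |x| := min_le_left _ _
  have hm2 : min |x| ρ ≤ 1 / 100 := (min_le_right _ _).trans hρ
  have h1 := FF_near ha (b := min |x| ρ / 2) (by positivity) (by linarith)
  have h2 := FF_mono (a := a) (b := min |x| ρ / 2) (c := |x| / 2) (by linarith) (by linarith)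
    (by positivity) (by linarith) (by linarith)
  calc 31 / 128 * min |x| ρ ^ 2 = 31 / 32 * (min |x| ρ / 2) ^ 2 := by ring
    _ ≤ _ := h1.trans h2

lemma FF_top {a b : ℝ} (ha0 : 0 ≤ a) (ha1 : a ≤ π) (hb0 : 0 ≤ b) (hb1 : b ≤ π) :
    FF a b ≤ max (FF a (π / 2)) 0 := by
  have key : ∀ b : ℝ, 0 ≤ b → b ≤ π / 2 → FF a b ≤ max (FF a (π / 2)) 0 := by
    intro b h0 h1
    rcases le_total a (π / 2) with h | h
    · exact (FF_nonpos ha0 h h0 h1).trans (le_max_right _ _)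
    · exact (FF_mono h ha1 h0 h1 le_rfl).trans (le_max_left _ _)
  rcases le_total b (π / 2) with h | h
  · exact key b hb0 h
  · rw [← FF_symm a b]
    exact key _ (by linarith) (by linarith)

theorem rho : S_RHO := by
  have hπ := Real.pi_pos
  have hL := lob_four_pos
  obtain ⟨ρ1, hρ1, hρ1', hB1⟩ := b1
  obtain ⟨κ1, hκ1, hB2⟩ := b2 (1 / (200 * π)) (by positivity)
  have hbet : 0 < bet := by rw [bet_eq]; positivity
  have hc1 : 0 < c1 := by unfold c1; positivity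
  have hc1' : c1 ≤ 1 := by
    unfold c1
    rw [div_le_one (by positivity)]
    nlinarith [Real.pi_gt_three]
  -- a small radius
  set ρs : ℝ := min (min ρ1 (1 / 100)) (min (bet / 3) (κ1 / 3)) with hρs
  have hρ0 : 0 < ρs := by positivity
  have hr1 : ρs ≤ ρ1 := (min_le_left _ _).trans (min_le_left _ _)
  have hr2 : ρs ≤ 1 / 100 := (min_le_left _ _).trans (min_le_right _ _)
  have hr3 : ρs ≤ bet / 3 := (min_le_right _ _).trans (min_le_left _ _)
  have hr4 : ρs ≤ κ1 / 3 := (min_le_right _ _).trans (min_le_right _ _)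
  have hm : ∀ x : ℝ, 0 ≤ min |x| ρs ∧ c1 * min |x| ρs ^ 2 ≤ ρs := by
    intro x
    have h0 : 0 ≤ min |x| ρs := le_min (abs_nonneg x) hρ0.le
    refine ⟨h0, ?_⟩
    have h1 : min |x| ρs ≤ ρs := min_le_right _ _
    have h2 : min |x| ρs ^ 2 ≤ ρs := by nlinarith
    have h3 : 0 ≤ min |x| ρs ^ 2 := by positivity
    nlinarith
  -- facts on `rh`
  have hrneg : ∀ δ x : ℝ, 0 ≤ δ → δ ≤ 1 → |x| ≤ π → rh (1 - δ) x = -rh δ x := by
    intro δ x _ _ _
    rw [rh_FF, rh_FF, show π - π * (1 - δ) = π - (π - π * δ) by ring, FF_refl]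
    ring
  have hrle : ∀ δ x : ℝ, rh δ x ≤ bet := by
    intro δ x
    rw [rh_FF, bet_eq]
    exact div_le_div_of_nonneg_right (FF_le _ _) hπ.le
  have hrge : ∀ δ x : ℝ, -bet ≤ rh δ x := by
    intro δ x
    have h1 : rh (1 - δ) x = -rh δ x := by
      rw [rh_FF, rh_FF, show π - π * (1 - δ) = π - (π - π * δ) by ring, FF_refl]
      ring
    have := hrle (1 - δ) x
    linarith
  have hrnn : ∀ δ x : ℝ, 0 ≤ δ → δ ≤ 1 / 2 → |x| ≤ π → 0 ≤ rh δ x := by
    intro δ x h0 h1 hx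
    rw [rh_abs]
    have hx0 := abs_nonneg x
    exact div_nonneg (FF_nonneg (by nlinarith) (by nlinarith) (by linarith) (by linarith)) hπ.le
  have hrnear : ∀ δ x : ℝ, |δ - 1 / 4| ≤ 1 / (200 * π) → |x| ≤ π →
      c1 * min |x| ρs ^ 2 ≤ rh δ x := by
    intro δ x hδ hx
    have h1 : |π - π * δ - 3 * π / 4| ≤ 1 / 200 := by
      rw [show π - π * δ - 3 * π / 4 = -(π * (δ - 1 / 4)) by ring, abs_neg, abs_mul,
        abs_of_pos hπ]
      calc π * |δ - 1 / 4| ≤ π * (1 / (200 * π)) := by gcongr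
        _ = 1 / 200 := by field_simp
    have h2 := FF_near' h1 hx hρ0.le hr2
    rw [rh_abs, le_div_iff₀ hπ]
    calc c1 * min |x| ρs ^ 2 * π = 31 / 128 * min |x| ρs ^ 2 := by
          unfold c1
          field_simp
      _ ≤ _ := h2
  have hb0 : ∀ δ : ℝ, 1 / 2 ≤ δ → δ ≤ 1 → bb δ 0 ≤ 0 := by
    intro δ h0 h1
    rw [bb_FF]
    have := FF_nonpos (a := π - π * δ) (b := 0 / 2 + π / 2) (by nlinarith) (by nlinarith)
      (by positivity) (by linarith)
    exact div_nonpos_of_nonpos_of_nonneg this hπ.le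
  have hb1 : ∀ δ x : ℝ, 0 ≤ δ → δ ≤ 1 → |x| ≤ π → bb δ x ≤ bet - c1 * min |x| ρs ^ 2 := by
    intro δ x h0 h1 hx
    have h2 := hB1 δ x h0 h1 hx
    have h3 : min |x| ρs ^ 2 ≤ min |x| ρ1 ^ 2 :=
      pow_le_pow_left₀ (hm x).1 (min_le_min_left _ hr1) 2
    have h4 : c1 * min |x| ρs ^ 2 ≤ c1 * min |x| ρ1 ^ 2 := mul_le_mul_of_nonneg_left h3 hc1.le
    linarith
  have hbt : ∀ δ x : ℝ, 0 ≤ δ → δ ≤ 1 → |x| ≤ π → bb δ x ≤ bet := by
    intro δ x h0 h1 hx
    have h2 := hb1 δ x h0 h1 hx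
    have := mul_nonneg hc1.le (sq_nonneg (min |x| ρs))
    linarith
  have h0pi : |(0 : ℝ)| ≤ π := by rw [abs_zero]; exact hπ.le
  refine ⟨ρs, hρ0, by linarith, hrneg, ?_, ?_, ?_, ?_, ?_⟩
  · intro δ x h0 h1 hx
    have hmx := hm x
    have hge := hrge δ x
    rw [sub_le_iff_le_add, max_le_iff]
    have hneg : (0 : ℝ) ≤ bet - c1 / 2 * min |x| ρs ^ 2 + rh δ x / 2 := by
      linarith [hmx.2]
    refine ⟨?_, hneg⟩
    rcases le_total (1 / 2) δ with hd | hd
    · exact (hb0 δ hd h1).trans hneg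
    · rcases le_total |δ - 1 / 4| (1 / (200 * π)) with hn | hn
      · have h3 := hrnear δ x hn hx
        have h4 := hbt δ 0 h0 h1 h0pi
        linarith
      · have h3 := hB2 δ 0 h0 h1 h0pi hn
        have h4 := hrnn δ x h0 hd hx
        linarith [hmx.2]
  · intro δ x h0 h1 hx
    have h2 := hb0 δ h0 h1
    rw [max_eq_right h2]
    linarith [hrge δ x]
  · intro δ x h0 h1 hx
    have hx' := abs_le.1 hx
    have h2 := FF_top (a := π - π * δ) (b := x / 2 + π / 2) (by nlinarith) (by nlinarith)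
      (by linarith) (by linarith)
    rw [bb_FF, bb_FF, zero_div, zero_add]
    have h3 : FF (π - π * δ) (x / 2 + π / 2) / π ≤ max (FF (π - π * δ) (π / 2)) 0 / π :=
      div_le_div_of_nonneg_right h2 hπ.le
    rwa [← max_div_div_right hπ.le, zero_div] at h3
  · intro δ x x' χ h0 h1 hx hx' hχ
    have e1 := hb1 δ x h0 (by linarith) hx
    have e2 := hb1 δ x' h0 (by linarith) hx'
    rcases le_total |δ - 1 / 4| (1 / (200 * π)) with hn | hn
    · have h3 := hrnear δ χ hn hχ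
      linarith
    · have f1 := hB2 δ x h0 (by linarith) hx hn
      have f2 := hB2 δ x' h0 (by linarith) hx' hn
      have f3 := hrnn δ χ h0 h1 hχ
      linarith [(hm x).2, (hm x').2, (hm χ).2]
  · intro ρ hρ
    obtain ⟨κ, hκ, h⟩ := b2 ρ hρ
    refine ⟨κ, hκ, ?_⟩
    intro δ x x' χ h0 h1 hx hx' hχ hδ
    have e1 := h δ x h0 (by linarith) hx hδ
    have e2 := h δ x' h0 (by linarith) hx' hδ
    have e3 := hrnn δ χ h0 h1 hχ
    linarith

end Pool.Agent.Y105.CB
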